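import Pool.Agent.H70.Mono.Defs2

/-!
# Project MONO, module E: reduction to tri-affine polynomials
-/

set_option autoImplicit false

namespace Pool.Agent.H70.Mono

open MvPolynomial

namespace E

section

variable {k : Type} [Field k] {σ τ : Type}

/-- a monomial which is not tri-affine -/
def Bad (κ : σ → Fin 3) (m : σ →₀ ℕ) : Prop := ∃ c, 2 ≤ cnt κ m c

open Classical in
/-- total complexity of a finite set of monomials -/
noncomputable def W (κ : σ → Fin 3) (T : Finset (σ →₀ ℕ)) : ℕ :=
  ∑ m ∈ T with ∃ c, 2 ≤ cnt κ m c, 3 ^ cpl κ m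

theorem wt_eq (κ : σ → Fin 3) (f : MvPolynomial σ k) : wt κ f = W κ f.support := rfl

theorem W_mono (κ : σ → Fin 3) {S T : Finset (σ →₀ ℕ)} (h : S ⊆ T) : W κ S ≤ W κ T := by
  classical
  unfold W
  apply Finset.sum_le_sum_of_subset
  exact Finset.filter_subset_filter _ h

theorem W_union [DecidableEq (σ →₀ ℕ)] (κ : σ → Fin 3) (S T : Finset (σ →₀ ℕ)) :
    W κ (S ∪ T) ≤ W κ S + W κ T := by
  unfold W
  rw [Finset.filter_union, ← Finset.sum_union_inter]
  exact Nat.le_add_right _ _

theorem W_singleton_le (κ : σ → Fin 3) (m : σ →₀ ℕ) : W κ {m} ≤ 3 ^ cpl κ m := by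
  classical
  unfold W
  rw [Finset.filter_singleton]
  split_ifs <;> simp

theorem W_singleton_good (κ : σ → Fin 3) {m : σ →₀ ℕ} (h : ∀ c, cnt κ m c ≤ 1) : W κ {m} = 0 := by
  classical
  unfold W
  rw [Finset.filter_singleton, if_neg]
  · simp
  · rintro ⟨c, hc⟩
    have := h c
    omega

theorem cnt_add (κ : σ → Fin 3) (m m' : σ →₀ ℕ) (c : Fin 3) :
    cnt κ (m + m') c = cnt κ m c + cnt κ m' c := by
  classical
  unfold cnt
  rw [Finsupp.sum_add_index']
  · intro i; split_ifs <;> rfl
  · intro i a b; split_ifs <;> simp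

theorem cnt_single (κ : σ → Fin 3) (i : σ) (e : ℕ) (c : Fin 3) :
    cnt κ (Finsupp.single i e) c = if κ i = c then e else 0 := by
  unfold cnt
  rw [Finsupp.sum_single_index]
  split_ifs <;> rfl

theorem cnt_mapDomain (κ : τ → Fin 3) (g : σ → τ) (m : σ →₀ ℕ) (c : Fin 3) :
    cnt κ (Finsupp.mapDomain g m) c = cnt (fun i => κ (g i)) m c := by
  unfold cnt
  rw [Finsupp.sum_mapDomain_index]
  · intro i; split_ifs <;> rfl
  · intro i a b; split_ifs <;> simp

theorem sum_cnt (κ : σ → Fin 3) (m : σ →₀ ℕ) : ∑ c, cnt κ m c = m.degree := by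
  classical
  unfold cnt Finsupp.sum
  rw [Finset.sum_comm, Finsupp.degree_apply]
  apply Finset.sum_congr rfl
  intro i _
  rw [Finset.sum_ite_eq]
  simp

theorem cpl_mapDomain (κ : τ → Fin 3) (g : σ → τ) (m : σ →₀ ℕ) :
    cpl κ (Finsupp.mapDomain g m) = cpl (fun i => κ (g i)) m := by
  unfold cpl
  simp only [cnt_mapDomain]
  congr 2
  rw [← sum_cnt κ, ← sum_cnt (fun i => κ (g i)) m]
  simp only [cnt_mapDomain]

theorem exists_split (m : σ →₀ ℕ) (n : ℕ) (hn : n ≤ m.degree) :
    ∃ a b : σ →₀ ℕ, a + b = m ∧ a.degree = n := by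
  classical
  induction n with
  | zero => exact ⟨0, m, by simp, by simp⟩
  | succ n ih =>
    obtain ⟨a, b, hab, ha⟩ := ih (by omega)
    have hb : b ≠ 0 := by
      rintro rfl
      rw [add_zero] at hab
      rw [← hab, ha] at hn
      omega
    obtain ⟨i, hi⟩ := Finsupp.ne_iff.mp hb
    rw [Finsupp.coe_zero, Pi.zero_apply] at hi
    have hle : Finsupp.single i 1 ≤ b := by
      rw [Finsupp.single_le_iff]
      omega
    refine ⟨a + Finsupp.single i 1, b - Finsupp.single i 1, ?_, ?_⟩
    · rw [add_assoc, add_tsub_cancel_of_le hle, hab]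
    · rw [map_add, ha, Finsupp.degree_single]

/-- the substitution `u ↦ u - p`, `v ↦ v + q` -/
noncomputable def sh (p q : MvPolynomial σ k) :
    MvPolynomial (σ ⊕ Bool) k →ₐ[k] MvPolynomial (σ ⊕ Bool) k :=
  aeval (Sum.elim (fun i => X (Sum.inl i)) (fun b : Bool => if b then X (Sum.inr true) - rename Sum.inl p
    else X (Sum.inr false) + rename Sum.inl q))

theorem sh_rename (p q r : MvPolynomial σ k) : sh p q (rename Sum.inl r) = rename Sum.inl r := by
  unfold sh
  rw [aeval_rename]
  have h : (Sum.elim (fun i => (X (Sum.inl i) : MvPolynomial (σ ⊕ Bool) k))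
      (fun b : Bool => if b then X (Sum.inr true) - rename Sum.inl p
        else X (Sum.inr false) + rename Sum.inl q)) ∘ Sum.inl = fun i => X (Sum.inl i) := by
    funext i
    rfl
  rw [h, ← aeval_X_left_apply (rename Sum.inl r), aeval_rename]
  rfl

theorem sh_inl (p q : MvPolynomial σ k) (i : σ) :
    sh p q (X (Sum.inl i)) = X (Sum.inl i) := by
  unfold sh
  rw [aeval_X]
  rfl

theorem sh_true (p q : MvPolynomial σ k) :
    sh p q (X (Sum.inr true)) = X (Sum.inr true) - rename Sum.inl p := by
  unfold sh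
  rw [aeval_X]
  simp

theorem sh_false (p q : MvPolynomial σ k) :
    sh p q (X (Sum.inr false)) = X (Sum.inr false) + rename Sum.inl q := by
  unfold sh
  rw [aeval_X]
  simp

theorem sh_comp (p q : MvPolynomial σ k) : (sh p q).comp (sh (-p) (-q)) = AlgHom.id k _ := by
  apply algHom_ext
  rintro (i | b)
  · rw [AlgHom.comp_apply, sh_inl, sh_inl, AlgHom.id_apply]
  · rcases b with _ | _
    · rw [AlgHom.comp_apply, sh_false, map_add, sh_false, sh_rename, AlgHom.id_apply, map_neg]
      ring
    · rw [AlgHom.comp_apply, sh_true, map_sub, sh_true, sh_rename, AlgHom.id_apply, map_neg]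
      ring

/-- the automorphism `u ↦ u - p`, `v ↦ v + q` -/
noncomputable def she (p q : MvPolynomial σ k) :
    MvPolynomial (σ ⊕ Bool) k ≃ₐ[k] MvPolynomial (σ ⊕ Bool) k :=
  AlgEquiv.ofAlgHom (sh p q) (sh (-p) (-q)) (sh_comp p q) (by
    have := sh_comp (-p) (-q)
    rwa [neg_neg, neg_neg] at this)

theorem she_stab (p q f0 : MvPolynomial σ k) :
    she p q (stab k (f0 + p * q)) = rename Sum.inl f0 + X (Sum.inr true) * X (Sum.inr false) +
      X (Sum.inr true) * rename Sum.inl q - X (Sum.inr false) * rename Sum.inl p := by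
  change sh p q (stab k (f0 + p * q)) = _
  unfold stab
  rw [map_add, sh_rename, map_mul, sh_true, sh_false, map_add, map_mul]
  ring

open Classical in
theorem she_support (a b : σ →₀ ℕ) (c : k) (f0 : MvPolynomial σ k) :
    (she (monomial a c) (monomial b 1) (stab k (f0 + monomial a c * monomial b 1))).support ⊆
      ((f0.support.image (Finsupp.mapDomain Sum.inl) ∪
        {Finsupp.single (Sum.inr true) 1 + Finsupp.single (Sum.inr false) 1}) ∪
        {Finsupp.single (Sum.inr true) 1 + Finsupp.mapDomain Sum.inl b}) ∪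
        {Finsupp.single (Sum.inr false) 1 + Finsupp.mapDomain Sum.inl a} := by
  rw [she_stab]
  refine (support_sub _ _ _).trans ?_
  refine Finset.union_subset_union ?_ ?_
  · refine (support_add).trans ?_
    refine Finset.union_subset_union ?_ ?_
    · refine (support_add).trans ?_
      refine Finset.union_subset_union ?_ ?_
      · exact support_rename_of_injective Sum.inl_injective |>.subset
      · rw [X, X, monomial_mul]
        exact support_monomial_subset
    · rw [X, rename_monomial, monomial_mul]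
      exact support_monomial_subset
  · rw [X, rename_monomial, monomial_mul]
    exact support_monomial_subset

theorem W_image [DecidableEq (σ ⊕ Bool →₀ ℕ)] (κ' : σ ⊕ Bool → Fin 3)
    (S : Finset (σ →₀ ℕ)) :
    W κ' (S.image (Finsupp.mapDomain Sum.inl)) = W (fun i => κ' (Sum.inl i)) S := by
  unfold W
  rw [Finset.filter_image, Finset.sum_image]
  · simp only [cnt_mapDomain, cpl_mapDomain]
  · intro x _ y _ h
    exact Finsupp.mapDomain_injective Sum.inl_injective h

open Classical in
theorem W_she (κ' : σ ⊕ Bool → Fin 3) (a b : σ →₀ ℕ) (c : k) (f0 : MvPolynomial σ k) :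
    W κ' (she (monomial a c) (monomial b 1)
      (stab k (f0 + monomial a c * monomial b 1))).support ≤
      W (fun i => κ' (Sum.inl i)) f0.support +
      W κ' {Finsupp.single (Sum.inr true) 1 + Finsupp.single (Sum.inr false) 1} +
      W κ' {Finsupp.single (Sum.inr true) 1 + Finsupp.mapDomain Sum.inl b} +
      W κ' {Finsupp.single (Sum.inr false) 1 + Finsupp.mapDomain Sum.inl a} := by
  refine (W_mono κ' (she_support a b c f0)).trans ?_
  refine (W_union κ' _ _).trans (Nat.add_le_add_right ?_ _)
  refine (W_union κ' _ _).trans (Nat.add_le_add_right ?_ _)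
  refine (W_union κ' _ _).trans (Nat.add_le_add_right ?_ _)
  exact (W_image κ' f0.support).le

theorem W_sub (κ : σ → Fin 3) {f : MvPolynomial σ k} {m : σ →₀ ℕ} (hm : m ∈ f.support)
    (hb : ∃ c, 2 ≤ cnt κ m c) :
    W κ (f - monomial m (coeff m f)).support + 3 ^ cpl κ m ≤ W κ f.support := by
  classical
  have hs : (f - monomial m (coeff m f)).support ⊆ f.support.erase m := by
    intro x hx
    rw [Finset.mem_erase]
    rw [mem_support_iff, coeff_sub, coeff_monomial] at hx
    refine ⟨?_, ?_⟩
    · rintro rfl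
      simp at hx
    · rw [mem_support_iff]
      intro h0
      rw [h0] at hx
      split_ifs at hx with h1
      · subst h1
        rw [h0] at hx
        simp at hx
      · simp at hx
  have h1 := W_mono κ hs
  have h2 : W κ (f.support.erase m) + 3 ^ cpl κ m = W κ f.support := by
    unfold W
    rw [Finset.filter_erase]
    exact Finset.sum_erase_add _ _ (Finset.mem_filter.mpr ⟨hm, hb⟩)
  omega

theorem cpl_le (κ : σ → Fin 3) (m : σ →₀ ℕ) : cpl κ m ≤ m.degree ^ 3 + m.degree ^ 2 := by
  unfold cpl
  rw [← sum_cnt κ m, Fin.sum_univ_three, Fin.sum_univ_three]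
  nlinarith [Nat.zero_le (cnt κ m 0 * cnt κ m 1), Nat.zero_le (cnt κ m 0 * cnt κ m 2),
    Nat.zero_le (cnt κ m 1 * cnt κ m 2)]

theorem exists_colours (g : Fin 3 → ℕ) (c0 : Fin 3) (h0 : 2 ≤ g c0) (h : ∑ c, g c ≤ 3) :
    ∃ c1 c2 : Fin 3, c1 ≠ c0 ∧ c2 ≠ c0 ∧ c1 ≠ c2 ∧ g c1 = 0 ∧
      ∀ f : Fin 3 → ℕ, ∑ c, f c = f c0 + f c1 + f c2 := by
  rw [Fin.sum_univ_three] at h
  fin_cases c0
  · by_cases h1 : g 1 = 0
    · exact ⟨1, 2, by decide, by decide, by decide, h1, fun f => by
        rw [Fin.sum_univ_three]; rfl⟩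
    · refine ⟨2, 1, by decide, by decide, by decide, ?_, fun f => by
        rw [Fin.sum_univ_three]; simp only [Fin.zero_eta]; ring⟩
      simp only [Fin.zero_eta] at h0
      omega
  · by_cases h1 : g 0 = 0
    · exact ⟨0, 2, by decide, by decide, by decide, h1, fun f => by
        rw [Fin.sum_univ_three]; simp only [Fin.mk_one]; ring⟩
    · refine ⟨2, 0, by decide, by decide, by decide, ?_, fun f => by
        rw [Fin.sum_univ_three]; simp only [Fin.mk_one]; ring⟩
      simp only [Fin.mk_one] at h0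
      omega
  · by_cases h1 : g 0 = 0
    · exact ⟨0, 1, by decide, by decide, by decide, h1, fun f => by
        rw [Fin.sum_univ_three]; simp only [Fin.reduceFinMk]; ring⟩
    · refine ⟨1, 0, by decide, by decide, by decide, ?_, fun f => by
        rw [Fin.sum_univ_three]; simp only [Fin.reduceFinMk]; ring⟩
      simp only [Fin.reduceFinMk] at h0
      omega

end

end E

section

variable {k : Type} [Field k] {σ : Type}

/-- E0 -/
theorem triAffine_of_wt {κ : σ → Fin 3} {f : MvPolynomial σ k} (h : wt κ f = 0) :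
    ∀ m ∈ f.support, (∀ i, m i ≤ 1) ∧ ∀ i j, i ≠ j → κ i = κ j → m i = 0 ∨ m j = 0 := by
  classical
  intro m hm
  have hc : ∀ c, cnt κ m c ≤ 1 := by
    intro c
    by_contra hc
    unfold wt at h
    rw [Finset.sum_eq_zero_iff] at h
    have := h m (Finset.mem_filter.mpr ⟨hm, c, by omega⟩)
    exact absurd this (by positivity)
  refine ⟨fun i => ?_, fun i j hij hκ => ?_⟩
  · refine le_trans ?_ (hc (κ i))
    unfold cnt Finsupp.sum
    by_cases hi : i ∈ m.support
    · have := Finset.single_le_sum (f := fun i' => if κ i' = κ i then m i' else 0)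
        (fun _ _ => Nat.zero_le _) hi
      simpa using this
    · rw [Finsupp.notMem_support_iff.mp hi]
      exact Nat.zero_le _
  · by_contra hne
    push Not at hne
    have h2 : m i + m j ≤ cnt κ m (κ i) := by
      unfold cnt Finsupp.sum
      have hsub : ({i, j} : Finset σ) ⊆ m.support := by
        intro x hx
        rw [Finset.mem_insert, Finset.mem_singleton] at hx
        rw [Finsupp.mem_support_iff]
        rcases hx with rfl | rfl
        · exact hne.1
        · exact hne.2
      have := Finset.sum_le_sum_of_subset (f := fun i' => if κ i' = κ i then m i' else 0) hsub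
      rw [Finset.sum_pair hij] at this
      simpa [hκ] using this
    have := hc (κ i)
    have h3 := hne.1
    have h4 := hne.2
    omega

/-- E1 -/
theorem wt_decr {κ : σ → Fin 3} {f : MvPolynomial σ k} (h : wt κ f ≠ 0) :
    ∃ (e : MvPolynomial (σ ⊕ Bool) k ≃ₐ[k] MvPolynomial (σ ⊕ Bool) k) (κ' : σ ⊕ Bool → Fin 3),
      wt κ' (e (stab k f)) < wt κ f := by
  classical
  obtain ⟨m, hm, c0, hc0⟩ : ∃ m ∈ f.support, ∃ c, 2 ≤ cnt κ m c := by
    by_contra hcon
    push Not at hcon
    apply h
    unfold wt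
    rw [Finset.sum_eq_zero_iff]
    intro m hm
    rw [Finset.mem_filter] at hm
    obtain ⟨hm, c, hc⟩ := hm
    have := hcon m hm c
    omega
  have hf : f = (f - monomial m (coeff m f)) + monomial m (coeff m f) := by ring
  -- the general estimate
  have key : ∀ (a b : σ →₀ ℕ) (κ' : σ ⊕ Bool → Fin 3), (∀ i, κ' (Sum.inl i) = κ i) →
      a + b = m → κ' (Sum.inr true) ≠ κ' (Sum.inr false) →
      E.W κ' {Finsupp.single (Sum.inr true) 1 + Finsupp.mapDomain Sum.inl b} +
      E.W κ' {Finsupp.single (Sum.inr false) 1 + Finsupp.mapDomain Sum.inl a} < 3 ^ cpl κ m →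
      ∃ (e : MvPolynomial (σ ⊕ Bool) k ≃ₐ[k] MvPolynomial (σ ⊕ Bool) k) (κ' : σ ⊕ Bool → Fin 3),
      wt κ' (e (stab k f)) < wt κ f := by
    intro a b κ' hκ hab hcc hlt
    refine ⟨E.she (monomial a (coeff m f)) (monomial b 1), κ', ?_⟩
    have hmon : monomial m (coeff m f) = monomial a (coeff m f) * monomial b 1 := by
      rw [monomial_mul, hab, mul_one]
    have hsup := E.W_she κ' a b (coeff m f) (f - monomial m (coeff m f))
    rw [← hmon, ← hf] at hsup
    rw [E.wt_eq, E.wt_eq]
    have h3 : E.W κ' {Finsupp.single (Sum.inr true) 1 + Finsupp.single (Sum.inr false) 1} = 0 := by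
      apply E.W_singleton_good
      intro c
      rw [E.cnt_add, E.cnt_single, E.cnt_single]
      split_ifs with h1 h2
      · exact absurd (h1.trans h2.symm) hcc
      all_goals omega
    have h5 : (fun i => κ' (Sum.inl i)) = κ := funext hκ
    rw [h5] at hsup
    have h6 := E.W_sub κ hm ⟨c0, hc0⟩
    omega
  by_cases hd : 4 ≤ m.degree
  · obtain ⟨a, b, hab, ha⟩ := E.exists_split m 2 (by omega)
    have hb : b.degree + 2 = m.degree := by
      rw [← hab, map_add, ha, add_comm]
    set κ' : σ ⊕ Bool → Fin 3 := Sum.elim κ (fun t : Bool => if t then (0 : Fin 3) else 1) with hκ'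
    refine key a b κ' (fun i => rfl) hab (by simp [hκ']) ?_
    have hm3 : m.degree ^ 3 ≤ cpl κ m := Nat.le_add_right _ _
    have hX := E.W_singleton_le κ' (Finsupp.single (Sum.inr true) 1 + Finsupp.mapDomain Sum.inl b)
    have hY := E.W_singleton_le κ' (Finsupp.single (Sum.inr false) 1 + Finsupp.mapDomain Sum.inl a)
    have hX1 := E.cpl_le κ' (Finsupp.single (Sum.inr true) 1 + Finsupp.mapDomain Sum.inl b)
    have hY1 := E.cpl_le κ' (Finsupp.single (Sum.inr false) 1 + Finsupp.mapDomain Sum.inl a)
    rw [map_add, Finsupp.degree_single, Finsupp.degree_mapDomain] at hX1 hY1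
    have e1 : (1 + b.degree) ^ 3 + (1 + b.degree) ^ 2 + 1 ≤ m.degree ^ 3 := by
      rw [← hb]
      nlinarith [Nat.zero_le b.degree]
    have e2 : (1 + a.degree) ^ 3 + (1 + a.degree) ^ 2 + 1 ≤ m.degree ^ 3 := by
      rw [ha]
      have : 4 ^ 3 ≤ m.degree ^ 3 := Nat.pow_le_pow_left hd 3
      omega
    have hcm : 1 ≤ cpl κ m := by omega
    have hXX : 3 ^ cpl κ' (Finsupp.single (Sum.inr true) 1 + Finsupp.mapDomain Sum.inl b) ≤
        3 ^ (cpl κ m - 1) := Nat.pow_le_pow_right (by norm_num) (by omega)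
    have hYY : 3 ^ cpl κ' (Finsupp.single (Sum.inr false) 1 + Finsupp.mapDomain Sum.inl a) ≤
        3 ^ (cpl κ m - 1) := Nat.pow_le_pow_right (by norm_num) (by omega)
    have hpow : 3 ^ cpl κ m = 3 * 3 ^ (cpl κ m - 1) := by
      rw [← pow_succ']
      congr 1
      omega
    have hpos : 0 < 3 ^ (cpl κ m - 1) := by positivity
    omega
  · obtain ⟨c1, c2, h10, h20, h12, hc1, hsum⟩ := E.exists_colours (cnt κ m) c0 hc0
      (by rw [E.sum_cnt]; omega)
    obtain ⟨i, hi, hκi⟩ : ∃ i, m i ≠ 0 ∧ κ i = c0 := by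
      by_contra hcon
      push Not at hcon
      have : cnt κ m c0 = 0 := by
        unfold cnt Finsupp.sum
        apply Finset.sum_eq_zero
        intro i hi
        exact if_neg (hcon i (Finsupp.mem_support_iff.mp hi))
      omega
    have hle : Finsupp.single i 1 ≤ m := by
      rw [Finsupp.single_le_iff]
      omega
    set κ' : σ ⊕ Bool → Fin 3 := Sum.elim κ (fun t : Bool => if t then c1 else c2) with hκ'
    have hab : Finsupp.single i 1 + (m - Finsupp.single i 1) = m := add_tsub_cancel_of_le hle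
    have ht : κ' (Sum.inr true) = c1 := by simp [hκ']
    have hfl : κ' (Sum.inr false) = c2 := by simp [hκ']
    refine key (Finsupp.single i 1) (m - Finsupp.single i 1) κ' (fun i => rfl) hab
      (by rw [ht, hfl]; exact h12) ?_
    have hY : E.W κ' {Finsupp.single (Sum.inr false) 1 +
        Finsupp.mapDomain Sum.inl (Finsupp.single i 1)} = 0 := by
      apply E.W_singleton_good
      intro c
      rw [Finsupp.mapDomain_single, E.cnt_add, E.cnt_single, E.cnt_single, hfl]
      have : κ' (Sum.inl i) = c0 := hκi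
      rw [this]
      split_ifs with h1 h2
      · exact absurd (h1.trans h2.symm) h20
      all_goals omega
    have hX := E.W_singleton_le κ' (Finsupp.single (Sum.inr true) 1 +
      Finsupp.mapDomain Sum.inl (m - Finsupp.single i 1))
    rw [hY, add_zero]
    refine lt_of_le_of_lt hX (Nat.pow_lt_pow_right (by norm_num) ?_)
    have hcb : ∀ c, (if c0 = c then 1 else 0) + cnt κ (m - Finsupp.single i 1) c = cnt κ m c := by
      intro c
      conv_rhs => rw [← hab, E.cnt_add, E.cnt_single, hκi]
    have hc' : ∀ c, cnt κ' (Finsupp.single (Sum.inr true) 1 +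
        Finsupp.mapDomain Sum.inl (m - Finsupp.single i 1)) c =
        (if c1 = c then 1 else 0) + cnt κ (m - Finsupp.single i 1) c := by
      intro c
      rw [E.cnt_add, E.cnt_single, E.cnt_mapDomain, ht]
      rfl
    unfold cpl
    have hdeg : (Finsupp.single (Sum.inr true : σ ⊕ Bool) 1 +
        Finsupp.mapDomain Sum.inl (m - Finsupp.single i 1)).degree = m.degree := by
      rw [map_add, Finsupp.degree_single, Finsupp.degree_mapDomain]
      conv_rhs => rw [← hab, map_add, Finsupp.degree_single]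
    rw [hdeg, hsum, hsum, hc', hc', hc']
    have a0 := hcb c0
    have a1 := hcb c1
    have a2 := hcb c2
    rw [if_pos rfl] at a0
    rw [if_neg h10.symm, hc1] at a1
    rw [if_neg h20.symm] at a2
    rw [if_neg h10, if_pos rfl, if_neg h12, hc1]
    have b1 : cnt κ (m - Finsupp.single i 1) c1 = 0 := by omega
    rw [b1, ← a0, ← a2]
    have b0 : 1 ≤ cnt κ (m - Finsupp.single i 1) c0 := by omega
    nlinarith

end

end Pool.Agent.H70.Mono
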